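import Mathlib

namespace Pool.Agent.Results.MP_df6457_lc.InfiniteFamily

/-- A language is factorial when every factor of a word of the language is in the language. -/
def Factorial {A : Type} (L : Language A) : Prop :=
  ∀ x y z : List A, x ++ y ++ z ∈ L → y ∈ L

/-- A language is transitive when any two of its words can be joined by a word in between. -/
def TransitiveLang {A : Type} (L : Language A) : Prop :=
  ∀ u ∈ L, ∀ v ∈ L, ∃ w : List A, u ++ w ++ v ∈ L

/-- FTR languages: factorial, transitive, rational. -/
def FTR {A : Type} (L : Language A) : Prop :=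
  Factorial L ∧ TransitiveLang L ∧ L.IsRegular

/-- The minimal generating set of a submonoid: its nonempty elements that are not a product of
two nonempty elements. -/
def gens {A : Type} (M : Submonoid (FreeMonoid A)) : Set (FreeMonoid A) :=
  {w | w ∈ M ∧ w ≠ 1 ∧ ¬ ∃ u ∈ M, ∃ v ∈ M, u ≠ 1 ∧ v ≠ 1 ∧ u * v = w}

/-- A submonoid is free when its minimal generating set is a code: two factorizations over the
minimal generating set having the same product are the same. -/
def IsFree {A : Type} (M : Submonoid (FreeMonoid A)) : Prop :=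
  ∀ l₁ l₂ : List (FreeMonoid A), (∀ x ∈ l₁, x ∈ gens M) → (∀ x ∈ l₂, x ∈ gens M) →
    l₁.prod = l₂.prod → l₁ = l₂

/-- The submonoid `M` is included in the language `L`. -/
def Inside {A : Type} (M : Submonoid (FreeMonoid A)) (L : Language A) : Prop :=
  ∀ w : FreeMonoid A, w ∈ M → FreeMonoid.toList w ∈ L

/-- `L`-maximal free submonoids. -/
def MaxFree {A : Type} (L : Language A) (M : Submonoid (FreeMonoid A)) : Prop :=
  IsFree M ∧ Inside M L ∧
    ∀ N : Submonoid (FreeMonoid A), IsFree N → M ≤ N → Inside N L → N = M

/-- Stability. -/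
def Stable {A : Type} (M : Submonoid (FreeMonoid A)) : Prop :=
  ∀ u v w : FreeMonoid A, u ∈ M → v ∈ M → u * w ∈ M → w * v ∈ M → w ∈ M

theorem exists_factorization {A : Type} (M : Submonoid (FreeMonoid A)) :
    ∀ (n : ℕ) (w : FreeMonoid A), w ∈ M → w.length ≤ n →
      ∃ l : List (FreeMonoid A), (∀ x ∈ l, x ∈ gens M) ∧ l.prod = w := by
  intro n
  induction n with
  | zero =>
    intro w _ hl
    refine ⟨[], by simp, ?_⟩
    have : w.length = 0 := by omega
    simpa using (FreeMonoid.length_eq_zero.mp this).symm
  | succ n ih =>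
    intro w hw hl
    by_cases h1 : w = 1
    · exact ⟨[], by simp, by simp [h1]⟩
    · by_cases hg : w ∈ gens M
      · exact ⟨[w], by simpa using hg, by simp⟩
      · have : ∃ u ∈ M, ∃ v ∈ M, u ≠ 1 ∧ v ≠ 1 ∧ u * v = w := by
          by_contra hcon
          exact hg ⟨hw, h1, hcon⟩
        obtain ⟨u, hu, v, hv, hu1, hv1, huv⟩ := this
        have hlen : u.length + v.length = w.length := by
          rw [← huv, FreeMonoid.length_mul]
        have hu0 : u.length ≠ 0 := fun h => hu1 (FreeMonoid.length_eq_zero.mp h)
        have hv0 : v.length ≠ 0 := fun h => hv1 (FreeMonoid.length_eq_zero.mp h)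
        obtain ⟨l₁, hl₁, hp₁⟩ := ih u hu (by omega)
        obtain ⟨l₂, hl₂, hp₂⟩ := ih v hv (by omega)
        refine ⟨l₁ ++ l₂, ?_, ?_⟩
        · intro x hx
          rcases List.mem_append.mp hx with h | h
          · exact hl₁ x h
          · exact hl₂ x h
        · rw [List.prod_append, hp₁, hp₂, huv]

theorem prod_mem {A : Type} (M : Submonoid (FreeMonoid A)) (l : List (FreeMonoid A))
    (h : ∀ x ∈ l, x ∈ gens M) : l.prod ∈ M :=
  Submonoid.list_prod_mem M fun x hx => (h x hx).1

theorem eq_one_of_mul_eq_one {A : Type} {x y : FreeMonoid A} (h : x * y = 1) : x = 1 ∧ y = 1 := by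
  have h2 : x.length + y.length = 0 := by
    rw [← FreeMonoid.length_mul, h]; simp
  exact ⟨FreeMonoid.length_eq_zero.mp (by omega), FreeMonoid.length_eq_zero.mp (by omega)⟩

theorem stable_of_free {A : Type} {M : Submonoid (FreeMonoid A)} (h : IsFree M) : Stable M := by
  intro u v w hu hv huw hwv
  obtain ⟨l1, h1, p1⟩ := exists_factorization M _ (u * w) huw le_rfl
  obtain ⟨l2, h2, p2⟩ := exists_factorization M _ v hv le_rfl
  obtain ⟨l3, h3, p3⟩ := exists_factorization M _ u hu le_rfl
  obtain ⟨l4, h4, p4⟩ := exists_factorization M _ (w * v) hwv le_rfl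
  have heq : l1 ++ l2 = l3 ++ l4 := by
    apply h
    · intro x hx
      rcases List.mem_append.mp hx with h | h
      · exact h1 x h
      · exact h2 x h
    · intro x hx
      rcases List.mem_append.mp hx with h | h
      · exact h3 x h
      · exact h4 x h
    · rw [List.prod_append, List.prod_append, p1, p2, p3, p4, mul_assoc]
  rcases List.append_eq_append_iff.mp heq with ⟨s, hs1, hs2⟩ | ⟨s, hs1, hs2⟩
  · -- l3 = l1 ++ s
    have : u * 1 = u * (w * s.prod) := by
      rw [mul_one, ← mul_assoc, ← p1, ← List.prod_append, ← hs1, p3]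
    have h' := (mul_left_cancel this).symm
    rw [(eq_one_of_mul_eq_one h').1]
    exact M.one_mem
  · -- l1 = l3 ++ s
    have : u * w = u * s.prod := by
      rw [← p1, hs1, List.prod_append, p3]
    have h' := mul_left_cancel this
    rw [h']
    apply prod_mem M
    intro x hx
    exact h1 x (by rw [hs1]; exact List.mem_append_right _ hx)

theorem mul_eq_mul_cases {A : Type} {x T₁ y T₂ : FreeMonoid A} (h : x * T₁ = y * T₂) :
    (∃ z, y = x * z ∧ T₁ = z * T₂) ∨ (∃ z, x = y * z ∧ T₂ = z * T₁) := by
  have h' : FreeMonoid.toList x ++ FreeMonoid.toList T₁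
      = FreeMonoid.toList y ++ FreeMonoid.toList T₂ := by
    rw [← FreeMonoid.toList_mul, ← FreeMonoid.toList_mul, h]
  rcases List.append_eq_append_iff.mp h' with ⟨s, hs1, hs2⟩ | ⟨s, hs1, hs2⟩
  · left
    exact ⟨FreeMonoid.ofList s, FreeMonoid.toList.injective hs1,
      FreeMonoid.toList.injective hs2⟩
  · right
    exact ⟨FreeMonoid.ofList s, FreeMonoid.toList.injective hs1,
      FreeMonoid.toList.injective hs2⟩

theorem free_of_stable {A : Type} {M : Submonoid (FreeMonoid A)} (h : Stable M) : IsFree M := by
  intro l₁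
  induction l₁ with
  | nil =>
    intro l₂ _ h2 hp
    cases l₂ with
    | nil => rfl
    | cons y t =>
      exfalso
      rw [List.prod_nil, List.prod_cons] at hp
      exact (h2 y (by simp)).2.1 (eq_one_of_mul_eq_one hp.symm).1
  | cons x t₁ ih =>
    intro l₂ h1 h2 hp
    cases l₂ with
    | nil =>
      exfalso
      rw [List.prod_nil, List.prod_cons] at hp
      exact (h1 x (by simp)).2.1 (eq_one_of_mul_eq_one hp).1
    | cons y t₂ =>
      rw [List.prod_cons, List.prod_cons] at hp
      have hx := h1 x (by simp)
      have hy := h2 y (by simp)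
      have ht1 : t₁.prod ∈ M := prod_mem M _ fun z hz => h1 z (by simp [hz])
      have ht2 : t₂.prod ∈ M := prod_mem M _ fun z hz => h2 z (by simp [hz])
      have hxy : x = y := by
        rcases mul_eq_mul_cases hp with ⟨z, hz1, hz2⟩ | ⟨z, hz1, hz2⟩
        · have hz : z ∈ M := h x t₂.prod z hx.1 ht2 (hz1 ▸ hy.1) (hz2 ▸ ht1)
          by_cases hz' : z = 1
          · rw [hz1, hz', mul_one]
          · exact absurd ⟨x, hx.1, z, hz, hx.2.1, hz', hz1.symm⟩ hy.2.2
        · have hz : z ∈ M := h y t₁.prod z hy.1 ht1 (hz1 ▸ hx.1) (hz2 ▸ ht2)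
          by_cases hz' : z = 1
          · rw [hz1, hz', mul_one]
          · exact absurd ⟨y, hy.1, z, hz, hy.2.1, hz', hz1.symm⟩ hx.2.2
      subst hxy
      have htt : t₁ = t₂ := ih t₂ (fun z hz => h1 z (by simp [hz]))
        (fun z hz => h2 z (by simp [hz])) (mul_left_cancel hp)
      rw [htt]

/-- Every free submonoid inside `L` extends to an `L`-maximal free one. -/
theorem exists_maxFree {A : Type} (L : Language A) (M : Submonoid (FreeMonoid A))
    (hM : IsFree M) (hL : Inside M L) : ∃ N, M ≤ N ∧ MaxFree L N := by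
  obtain ⟨N, hMN, hN⟩ := zorn_le_nonempty₀ {N : Submonoid (FreeMonoid A) | Stable N ∧ Inside N L}
    (by
      intro c hc hchain y hy
      have hdir : DirectedOn (· ≤ ·) c := hchain.directedOn
      refine ⟨sSup c, ⟨?_, ?_⟩, fun z hz => le_sSup hz⟩
      · intro u v w hu hv huw hwv
        rw [Submonoid.mem_sSup_of_directedOn ⟨y, hy⟩ hdir] at hu hv huw hwv ⊢
        obtain ⟨N1, hN1, m1⟩ := hu
        obtain ⟨N2, hN2, m2⟩ := hv
        obtain ⟨N3, hN3, m3⟩ := huw
        obtain ⟨N4, hN4, m4⟩ := hwv
        obtain ⟨N5, hN5, h15, h25⟩ := hdir N1 hN1 N2 hN2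
        obtain ⟨N6, hN6, h36, h46⟩ := hdir N3 hN3 N4 hN4
        obtain ⟨N7, hN7, h57, h67⟩ := hdir N5 hN5 N6 hN6
        exact ⟨N7, hN7, (hc hN7).1 u v w (h57 (h15 m1)) (h57 (h25 m2)) (h67 (h36 m3))
          (h67 (h46 m4))⟩
      · intro w hw
        rw [Submonoid.mem_sSup_of_directedOn ⟨y, hy⟩ hdir] at hw
        obtain ⟨N1, hN1, m1⟩ := hw
        exact (hc hN1).2 w m1)
    M ⟨stable_of_free hM, hL⟩
  refine ⟨N, hMN, free_of_stable hN.prop.1, hN.prop.2, ?_⟩
  intro K hK hNK hKL
  exact le_antisymm (hN.2 ⟨stable_of_free hK, hKL⟩ hNK) hNK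

/-! ### The language: binary words without factor `bab` (`a = false`, `b = true`) -/

/-- Words over the letters `a = false` and `b = true` without factor `bab`. -/
def noBab : Language Bool := {w | ¬ [true, false, true] <:+: w}

theorem factorial_noBab : Factorial noBab := by
  intro x y z h hy
  apply h
  obtain ⟨s, t, hst⟩ := hy
  exact ⟨x ++ s, t ++ z, by rw [← hst]; simp⟩

/-- The automaton: state 0 = no useful memory, 1 = just read b, 2 = just read ba, 3 = dead. -/
def stepD : Fin 4 → Bool → Fin 4
  | 0, false => 0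
  | 0, true => 1
  | 1, false => 2
  | 1, true => 1
  | 2, false => 0
  | 2, true => 3
  | 3, _ => 3

def autD : DFA Bool (Fin 4) where
  step := stepD
  start := 0
  accept := {3}ᶜ

theorem stepD_three (w : List Bool) : List.foldl stepD 3 w = 3 := by
  induction w with
  | nil => rfl
  | cons a w ih => cases a <;> simpa [stepD] using ih

theorem infix_cons_iff' (w : List Bool) :
    ∀ a : Bool, ([true, false, true] <:+: a :: w ↔
      [true, false, true] <+: a :: w ∨ [true, false, true] <:+: w) := by
  intro a
  exact List.infix_cons_iff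

theorem prefix_cons_iff' (w : List Bool) :
    ([true, false, true] <+: true :: w ↔ [false, true] <+: w) := by
  exact List.prefix_cons_inj true

theorem run_iff (w : List Bool) :
    (List.foldl stepD 0 w = 3 ↔ [true, false, true] <:+: w) ∧
    (List.foldl stepD 1 w = 3 ↔ [true, false, true] <:+: w ∨ [false, true] <+: w) ∧
    (List.foldl stepD 2 w = 3 ↔ [true, false, true] <:+: w ∨ [true] <+: w) := by
  induction w with
  | nil => simp
  | cons a w ih =>
    obtain ⟨h0, h1, h2⟩ := ih
    cases a
    · refine ⟨?_, ?_, ?_⟩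
      · simp only [List.foldl_cons, stepD, h0, List.infix_cons_iff]
        simp [List.cons_prefix_cons]
      · simp only [List.foldl_cons, stepD, h2, List.infix_cons_iff]
        simp [List.cons_prefix_cons]
      · simp only [List.foldl_cons, stepD, h0, List.infix_cons_iff]
        simp [List.cons_prefix_cons]
    · refine ⟨?_, ?_, ?_⟩
      · simp only [List.foldl_cons, stepD, h1, List.infix_cons_iff]
        simp [List.cons_prefix_cons, or_comm]
      · simp only [List.foldl_cons, stepD, h1, List.infix_cons_iff]
        simp [List.cons_prefix_cons, or_comm]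
      · simp only [List.foldl_cons, stepD, stepD_three, List.infix_cons_iff]
        simp [List.cons_prefix_cons]

theorem regular_noBab : noBab.IsRegular := by
  refine ⟨Fin 4, inferInstance, autD, ?_⟩
  ext w
  rw [DFA.mem_accepts]
  change List.foldl stepD 0 w ∈ ({3}ᶜ : Set (Fin 4)) ↔ ¬ [true, false, true] <:+: w
  rw [Set.mem_compl_iff, Set.mem_singleton_iff, (run_iff w).1]

theorem mem_noBab_iff (w : List Bool) : w ∈ noBab ↔ List.foldl stepD 0 w ≠ 3 := by
  change ¬ [true, false, true] <:+: w ↔ _
  rw [← (run_iff w).1]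

theorem transitive_noBab : TransitiveLang noBab := by
  intro u hu v hv
  refine ⟨[false, false], ?_⟩
  rw [mem_noBab_iff] at hu hv ⊢
  rw [List.foldl_append, List.foldl_append]
  generalize List.foldl stepD 0 u = s at hu
  have : List.foldl stepD s [false, false] = 0 := by
    revert hu; revert s; decide
  rw [this]
  exact hv

theorem ftr_noBab : FTR noBab := ⟨factorial_noBab, transitive_noBab, regular_noBab⟩

/-! ### The submonoids `{a^p, b}*` -/

/-- Counting the current block of `a` modulo `p`. -/
def stepP (p : ℕ) : Option (ZMod p) → Bool → Option (ZMod p)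
  | none, _ => none
  | some i, false => some (i + 1)
  | some i, true => if i = 0 then some 0 else none

theorem stepP_none (p : ℕ) (w : List Bool) : List.foldl (stepP p) none w = none := by
  induction w with
  | nil => rfl
  | cons a w ih => simpa [stepP] using ih

/-- The submonoid generated by `a^p` and `b`. -/
def subP (p : ℕ) : Submonoid (FreeMonoid Bool) where
  carrier := {w | List.foldl (stepP p) (some 0) (FreeMonoid.toList w) = some 0}
  one_mem' := rfl
  mul_mem' := by
    intro u v hu hv
    change List.foldl (stepP p) (some 0) (FreeMonoid.toList (u * v)) = some 0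
    rw [FreeMonoid.toList_mul, List.foldl_append]
    rw [show List.foldl (stepP p) (some 0) (FreeMonoid.toList u) = some 0 from hu]
    exact hv

theorem mem_subP (p : ℕ) (w : FreeMonoid Bool) :
    w ∈ subP p ↔ List.foldl (stepP p) (some 0) (FreeMonoid.toList w) = some 0 := Iff.rfl

theorem stable_subP (p : ℕ) : Stable (subP p) := by
  intro u v w hu _ huw _
  rw [mem_subP] at hu huw ⊢
  rw [FreeMonoid.toList_mul, List.foldl_append, hu] at huw
  exact huw

theorem inside_subP (p : ℕ) (hp : 2 ≤ p) : Inside (subP p) noBab := by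
  intro w hw hbab
  rw [mem_subP] at hw
  obtain ⟨s, t, hst⟩ := hbab
  have : Fact (1 < p) := ⟨hp⟩
  rw [← hst, List.foldl_append, List.foldl_append] at hw
  have key : ∀ o : Option (ZMod p), List.foldl (stepP p) o [true, false, true] = none := by
    intro o
    cases o with
    | none => rfl
    | some i =>
      by_cases hi : i = 0
      · simp [stepP, hi]
      · simp [stepP, hi]
  rw [key, stepP_none] at hw
  exact absurd hw (by simp)

theorem foldl_replicate (p : ℕ) (n : ℕ) (i : ZMod p) :
    List.foldl (stepP p) (some i) (List.replicate n false) = some (i + n) := by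
  induction n generalizing i with
  | zero => simp
  | succ n ih =>
    rw [List.replicate_succ, List.foldl_cons]
    change List.foldl (stepP p) (some (i + 1)) _ = _
    rw [ih]
    push_cast
    congr 1
    ring

/-- The word `a^n`. -/
def powA (n : ℕ) : FreeMonoid Bool := FreeMonoid.ofList (List.replicate n false)

theorem powA_add (m n : ℕ) : powA (m + n) = powA m * powA n := by
  apply FreeMonoid.toList.injective
  rw [FreeMonoid.toList_mul]
  exact List.replicate_add m n false

theorem powA_mem (p : ℕ) : powA p ∈ subP p := by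
  rw [mem_subP]
  change List.foldl (stepP p) (some 0) (List.replicate p false) = some 0
  rw [foldl_replicate]
  simp

theorem b_mem (p : ℕ) : FreeMonoid.ofList [true] ∈ subP p := by
  rw [mem_subP]
  change List.foldl (stepP p) (some 0) [true] = some 0
  simp [stepP]

theorem powA_mul_mem {N : Submonoid (FreeMonoid Bool)} {m : ℕ} (h : powA m ∈ N) (k : ℕ) :
    powA (m * k) ∈ N := by
  induction k with
  | zero => exact N.one_mem
  | succ k ih =>
    rw [Nat.mul_succ, powA_add]
    exact N.mul_mem ih h

theorem powA_gcd_mem {N : Submonoid (FreeMonoid Bool)} (hN : Stable N) :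
    ∀ m n : ℕ, powA m ∈ N → powA n ∈ N → powA (Nat.gcd m n) ∈ N := by
  intro m n
  induction m, n using Nat.gcd.induction with
  | H0 n =>
    intro _ h
    rwa [Nat.gcd_zero_left]
  | H1 m n _ ih =>
    intro hm hn
    rw [Nat.gcd_rec]
    apply ih _ hm
    have h1 : powA (m * (n / m)) ∈ N := powA_mul_mem hm _
    have h2 : m * (n / m) + n % m = n := Nat.div_add_mod n m
    apply hN (powA (m * (n / m))) (powA (m * (n / m))) (powA (n % m)) h1 h1
    · rw [← powA_add, h2]; exact hn
    · rw [← powA_add, add_comm, h2]; exact hn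

/-- There is an FTR language (the binary words without factor `bab`) containing infinitely many
maximal free submonoids. -/
theorem result : ∃ L : Language Bool, FTR L ∧
    {M : Submonoid (FreeMonoid Bool) | MaxFree L M}.Infinite := by
  refine ⟨noBab, ftr_noBab, ?_⟩
  have hex : ∀ p : {p : ℕ // p.Prime}, ∃ N, subP p ≤ N ∧ MaxFree noBab N := fun p =>
    exists_maxFree noBab (subP p) (free_of_stable (stable_subP p))
      (inside_subP p p.2.two_le)
  choose N hN1 hN2 using hex
  have hinj : Function.Injective N := by
    intro p q hpq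
    by_contra hne
    have hcop : Nat.Coprime p q :=
      (Nat.coprime_primes p.2 q.2).mpr fun h => hne (Subtype.ext h)
    have hst : Stable (N p) := stable_of_free (hN2 p).1
    have h1 : powA p ∈ N p := hN1 p (powA_mem p)
    have h2 : powA q ∈ N p := by rw [hpq]; exact hN1 q (powA_mem q)
    have h3 : powA 1 ∈ N p := by
      have := powA_gcd_mem hst p q h1 h2
      rwa [hcop] at this
    have hb : FreeMonoid.ofList [true] ∈ N p := hN1 p (b_mem p)
    have h4 := (hN2 p).2.1 _ ((N p).mul_mem ((N p).mul_mem hb h3) hb)
    apply h4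
    exact List.infix_rfl
  have : Infinite {p : ℕ // p.Prime} := Nat.infinite_setOfPred_prime.to_subtype
  exact (Set.infinite_range_of_injective hinj).mono (by
    rintro _ ⟨p, rfl⟩
    exact hN2 p)

end Pool.Agent.Results.MP_df6457_lc.InfiniteFamily
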